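import Pool.Agent.Helper90.MZ.StmtsA

/-!
# MP_79eb7e_lc, module NWO: nonorthogonal types over a model are not weakly orthogonal
-/

set_option autoImplicit false

namespace Pool.Agent.Helper90.MZ

open Pool.Agent.Helper90.TS

variable {V G : Type} [Group G] [MulAction G V]

/-- translates of models are models -/
theorem nwo_mdl (X : Ctx V G) {M : Set V} (h : Mdl X M) (g : G) : Mdl X (tr g M) := by
  refine ⟨tr_countable g h.1, ?_⟩
  intro n D hD hne
  obtain ⟨x0, hx0⟩ := hne
  have h1 := ov_smul hD g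
  rw [tr_inv_tr] at h1
  obtain ⟨x, hx, hxM⟩ := h.2 n _ h1 ⟨g⁻¹ • x0, by
    change g • (g⁻¹ • x0) ∈ D
    rw [smul_inv_smul]
    exact hx0⟩
  refine ⟨g • x, hx, ?_⟩
  rw [← tr_range]
  exact tr_mono g hxM

/-- moving a realization by an element which fixes the base -/
theorem nwo_rl (hINVA : ST_INVA) (X : Ctx V G) {p : Ty V} (hp : SR X p) {g : G}
    (hg : g ∈ Fx G p.A) {B : Set V} (hB : B.Countable) {y : Fin 1 → V} (h : Rl X p B y) :
    Rl X p (tr g B) (g • y) := by
  obtain ⟨_, h2, _, _, _, _, _, _, _, _, _, h12⟩ := hINVA V G X g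
  exact ((h12 p hp hg).2.2.1 (tr g B) (g • y)).1 (h2 p B y hp.cnt hB h)

theorem st_NWO (hSRM : ST_SRM) (hRLB : ST_RLB) (hINVA : ST_INVA) : ST_NWO := by
  intro V G _ _ X p q N N' y' hp hq hpq hN hpN hqN hy' hN' hNN' hy'N'
  obtain ⟨B, y0, y0', hB, hpB, hqB, h0, h0', hnot⟩ := hpq
  have hNc : N.Countable := hN.1
  have hpc : p.A.Countable := hp.cnt
  have hqc : q.A.Countable := hq.cnt
  have hAc : (p.A ∪ q.A).Countable := hpc.union hqc
  have hyc : (Set.range y0).Countable := Set.countable_range y0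
  have hyc' : (Set.range y0').Countable := Set.countable_range y0'
  obtain ⟨g, hg, hgi⟩ := si_ex (X := X) hAc hNc (hB.union (hyc.union hyc'))
  have hgp : g ∈ Fx G p.A := (fx_union.1 hg).1
  have hgq : g ∈ Fx G q.A := (fx_union.1 hg).2
  have hN2c : (tr g N).Countable := tr_countable g hNc
  have hpN2 : p.A ⊆ tr g N := by
    have := tr_mono g hpN
    rwa [tr_fx hgp] at this
  have hqN2 : q.A ⊆ tr g N := by
    have := tr_mono g hqN
    rwa [tr_fx hgq] at this
  have hAB : p.A ∪ q.A ∪ B = B :=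
    Set.union_eq_self_of_subset_left (Set.union_subset hpB hqB)
  have hBi := ((si_union hAc hN2c hB (hyc.union hyc')).1 hgi).2
  rw [hAB] at hBi
  have hiy : SI X B (Set.range y0) (tr g N) :=
    si_symm hB hN2c hyc (si_right hB hN2c (hyc.union hyc') Set.subset_union_left hBi)
  have hiy' : SI X B (Set.range y0') (tr g N) :=
    si_symm hB hN2c hyc' (si_right hB hN2c (hyc.union hyc') Set.subset_union_right hBi)
  have hqAB : q.A ∪ B = B := Set.union_eq_self_of_subset_left hqB
  have hpAB : p.A ∪ B = B := Set.union_eq_self_of_subset_left hpB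
  -- `y0'` realizes `q | B N2`
  have hr1 : Rl X q (B ∪ tr g N) y0' :=
    (hRLB V G X q hq B hB).2.2.2.1 y0' (tr g N) hN2c h0' (by rw [hqAB]; exact hiy')
  have hr2 : Rl X q (tr g N) y0' :=
    (hRLB V G X q hq (B ∪ tr g N) (hB.union hN2c)).2.2.1 y0' hr1 (tr g N)
      (Set.subset_union_of_subset_right Set.subset_union_right _)
  have hr3 : Rl X q (tr g N) (g • y') := nwo_rl hINVA X hq hgq hNc hy'
  obtain ⟨k, hk, hky⟩ := (hRLB V G X q hq (tr g N) hN2c).2.1 (g • y') y0' hr3 hr2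
  have hkN2 : k ∈ Fx G (tr g N) := (fx_union.1 hk).2
  -- the first translate of `N'`
  set τ : G := k * g with hτ
  have hτN : tr τ N = tr g N := by rw [hτ, ← tr_tr, tr_fx hkN2]
  have hτy : τ • y' = y0' := by rw [hτ, mul_smul, hky]
  have hN'c : N'.Countable := hN'.1
  have hτN'c : (tr τ N').Countable := tr_countable τ hN'c
  obtain ⟨m, hm, hmi⟩ := si_ex (X := X) (hN2c.union hyc') hτN'c (hB.union hyc)
  have hmN2 : m ∈ Fx G (tr g N) := (fx_union.1 hm).1
  have hmy : m • y0' = y0' := fx_range.1 (fx_union.1 hm).2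
  set σ : G := m * τ with hσ
  have hσN : tr σ N = tr g N := by rw [hσ, ← tr_tr, hτN, tr_fx hmN2]
  have hσN' : tr m (tr τ N') = tr σ N' := by rw [hσ, tr_tr]
  have hσy : σ • y' = y0' := by rw [hσ, mul_smul, hτy, hmy]
  rw [hσN'] at hmi
  have hM : Mdl X (tr g N) := nwo_mdl X hN g
  have hM' : Mdl X (tr σ N') := nwo_mdl X hN' σ
  have hM'c : (tr σ N').Countable := hM'.1
  have hsub : tr g N ⊆ tr σ N' := by
    rw [← hσN]
    exact tr_mono σ hNN'
  have hy0'sub : Set.range y0' ⊆ tr σ N' := by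
    rw [← hσy, ← tr_range]
    exact tr_mono σ hy'N'
  have hσp : σ ∈ Fx G p.A := by
    refine (Fx G p.A).mul_mem ?_ ((Fx G p.A).mul_mem ?_ hgp)
    · exact fx_anti hpN2 hmN2
    · exact fx_anti hpN2 hkN2
  -- independence of `B` and the model
  have hqN2' : q.A ∪ tr g N = tr g N := Set.union_eq_self_of_subset_left hqN2
  have hr4 : Rl X q (tr g N ∪ B) y0' := by
    rw [Set.union_comm]
    exact hr1
  have hi1 : SI X (tr g N) (Set.range y0') B := by
    have := (hRLB V G X q hq (tr g N) hN2c).2.2.2.2.1 y0' B hB hr4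
    rwa [hqN2'] at this
  have hi2 : SI X (tr g N ∪ Set.range y0') (tr σ N') B :=
    si_right (hN2c.union hyc') hM'c (hB.union hyc) Set.subset_union_left hmi
  have hi3 : SI X (tr g N) (Set.range y0' ∪ tr σ N') B :=
    si_transl hN2c hyc' hB hM'c hi1 hi2
  have hi4 : SI X (tr g N) B (tr σ N') :=
    si_symm hN2c hM'c hB (si_left Set.subset_union_right hi3)
  -- `y0` realizes `p | N2 B`
  have hr5 : Rl X p (tr g N ∪ B) y0 := by
    rw [Set.union_comm]
    exact (hRLB V G X p hp B hB).2.2.2.1 y0 (tr g N) hN2c h0 (by rw [hpAB]; exact hiy)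
  by_cases hom : Om X p (tr g N) (tr σ N')
  · exfalso
    have h1 := hSRM V G X p (tr g N) (tr σ N') B y0 hp hM hpN2 hM' hsub hom hB hi4 hr5
    have h2 : SI X (tr g N ∪ B) (Set.range y0) (Set.range y0') :=
      si_right (hN2c.union hB) hyc hM'c hy0'sub h1
    apply hnot
    have h3 : SI X B (Set.range y0) (tr g N ∪ Set.range y0') :=
      si_trans hB hyc hN2c hyc' hiy (by rw [Set.union_comm]; exact h2)
    exact si_right hB hyc (hN2c.union hyc') Set.subset_union_right h3
  · have h1 : ∃ y1 : Fin 1 → V, Set.range y1 ⊆ tr σ N' ∧ Rl X p (tr g N) y1 := by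
      by_contra hcon
      apply hom
      intro y hy hr
      exact hcon ⟨y, hy, hr⟩
    obtain ⟨y1, hy1, hr1'⟩ := h1
    refine ⟨σ⁻¹ • y1, ?_, ?_⟩
    · rw [← tr_range]
      have := tr_mono σ⁻¹ hy1
      rwa [tr_inv_tr] at this
    · have h2 := nwo_rl hINVA X hp (inv_mem hσp) hN2c hr1'
      rw [← hσN, tr_inv_tr] at h2
      exact h2

end Pool.Agent.Helper90.MZ
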